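import Pool.Agent.T9h98.NK.SpecS

/-!
# Piece CENS of the project NK: the centre of a simplicial figure
-/

set_option autoImplicit false

open Set
open scoped RealInnerProductSpace

namespace Pool.Agent.T9h96.NK

open Pool.Agent.T9h98.DC Pool.Agent.T9h44.NK Pool.Agent.T9h98.NK

/-- a vector whose inner product is constant on a set with interior points is zero -/
theorem eq_zero_of_const {d : ℕ} {Q : Set (E d)} (hQ : (interior Q).Nonempty) (z : E d) (β : ℝ)
    (h : ∀ x ∈ Q, ⟪x, z⟫ = β) : z = 0 := by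
  obtain ⟨p, hp⟩ := hQ
  obtain ⟨ε, hε, hball⟩ := Metric.isOpen_iff.1 isOpen_interior p hp
  by_contra hz
  have hz' : 0 < ‖z‖ := norm_pos_iff.2 hz
  have hmem : p + (ε / (2 * ‖z‖)) • z ∈ Q := by
    apply interior_subset
    apply hball
    rw [Metric.mem_ball, dist_eq_norm, add_sub_cancel_left, norm_smul, Real.norm_eq_abs,
      abs_of_pos (by positivity)]
    have : ε / (2 * ‖z‖) * ‖z‖ = ε / 2 := by
      field_simp
    rw [this]
    linarith
  have h1 := h _ hmem
  have h2 := h p (interior_subset hp)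
  rw [inner_add_left, real_inner_smul_left, h2] at h1
  have h3 : 0 < ε / (2 * ‖z‖) * ⟪z, z⟫ := by
    rw [real_inner_self_eq_norm_sq]
    positivity
  linarith

/-- constant on the points, constant on the hull -/
theorem const_hull {d : ℕ} {S : Set (E d)} (z : E d) (β : ℝ) (h : ∀ x ∈ S, ⟪x, z⟫ = β) :
    ∀ x ∈ convexHull ℝ S, ⟪x, z⟫ = β := by
  intro x hx
  have hc : Convex ℝ {x : E d | ⟪x, z⟫ = β} := by
    intro x hx y hy a b _ _ hab
    have hx' : ⟪x, z⟫ = β := hx
    have hy' : ⟪y, z⟫ = β := hy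
    show ⟪a • x + b • y, z⟫ = β
    rw [inner_add_left, real_inner_smul_left, real_inner_smul_left, hx', hy', ← add_mul, hab,
      one_mul]
  exact convexHull_min (fun y hy => h y hy) hc hx

theorem cens' : S_VF → S_G1 → S_CENS := by
  intro hVF hG1 D P H v n ι hD hP hPres hv hyp u s hs hdist hfig
  obtain ⟨hSup, hn, hOrt, hfix, hReg, hGood⟩ := hyp
  have hQ := (hVF D P v n ι hP hv hSup hn hOrt).1
  obtain ⟨hVx, hinj, hAdj, -⟩ := hG1 D (fig v n ι P) u s (by omega) hs hdist hfig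
  have htrans : ∀ i j, ∃ k ∈ figH H v ι, k (u i) = u j := by
    intro i j
    have hcard : ({i, j} : Finset (Fin (D + 1))).card <
        (Finset.univ : Finset (Fin (D + 1))).card := by
      rw [Finset.card_univ, Fintype.card_fin]
      exact lt_of_le_of_lt Finset.card_le_two (by omega)
    obtain ⟨l, -, hl⟩ := Finset.exists_mem_notMem_of_card_lt_card hcard
    rw [Finset.mem_insert, Finset.mem_singleton, not_or] at hl
    exact hGood (u l) (u i) (u j) (hAdj l i hl.1) (hAdj l j hl.2)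
  have hnorm : ∀ i, ‖u i‖ = ‖u 0‖ := by
    intro i
    obtain ⟨k, -, hk⟩ := htrans i 0
    rw [← hk, k.norm_map]
  have hself : ∀ i, ⟪u i, u i⟫ = ‖u 0‖ ^ 2 := by
    intro i
    rw [real_inner_self_eq_norm_sq, hnorm i]
  have hin : ∀ i j, i ≠ j → ⟪u i, u j⟫ = ‖u 0‖ ^ 2 - s ^ 2 / 2 := by
    intro i j hij
    have h1 := hdist i j hij
    rw [dist_eq_norm] at h1
    have h2 := norm_sub_sq_real (u i) (u j)
    rw [h1, hnorm i, hnorm j] at h2
    linarith
  have hsum : ∀ i, ⟪u i, ∑ j, u j⟫ =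
      (∑ _j : Fin (D + 1), (‖u 0‖ ^ 2 - s ^ 2 / 2)) + s ^ 2 / 2 := by
    intro i
    rw [inner_sum]
    have h1 : ∀ j ∈ (Finset.univ : Finset (Fin (D + 1))), ⟪u i, u j⟫ =
        (‖u 0‖ ^ 2 - s ^ 2 / 2) + (if j = i then s ^ 2 / 2 else 0) := by
      intro j _
      by_cases hj : j = i
      · rw [if_pos hj, hj, hself]
        ring
      · rw [if_neg hj, hin i j (Ne.symm hj), add_zero]
    rw [Finset.sum_congr rfl h1, Finset.sum_add_distrib, Finset.sum_ite_eq' Finset.univ i,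
      if_pos (Finset.mem_univ i)]
  refine ⟨?_, ?_⟩
  · refine eq_zero_of_const hQ.2 (∑ i, u i)
      ((∑ _j : Fin (D + 1), (‖u 0‖ ^ 2 - s ^ 2 / 2)) + s ^ 2 / 2) ?_
    rw [hfig]
    apply const_hull
    rintro x ⟨i, rfl⟩
    exact hsum i
  · intro x x' hx hx'
    rw [hVx] at hx hx'
    obtain ⟨i, rfl⟩ := hx
    obtain ⟨j, rfl⟩ := hx'
    exact htrans i j

/-- **CENS.** -/
theorem cens : S_FACES → S_VF → S_TR → S_G1 → S_CENS := fun _ h _ h' => cens' h h'

end Pool.Agent.T9h96.NK
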